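import Pool.Agent.HUK.Stmts
import Pool.Agent.Helper79_HIK.CST

/-! Row CTP of HUK (helper94): a place identifies the constants of `Om` with `QB`. -/

set_option autoImplicit false

namespace Pool.Agent.HUK.H94

open Polynomial NumberField Pool.Agent.MTL Pool.Agent.MTL.H34 Pool.Agent.HIK

/-- the ring homomorphisms from `ℚ` to `Om` -/
theorem rat_hom : ((algebraMap BB Om).comp (algebraMap ℚ[X] BB)).comp (algebraMap ℚ ℚ[X]) =
    algebraMap ℚ Om := Subsingleton.elim _ _

theorem surj (π : BB →+* QB) (y : QB) : ∃ b : BB, IsAlgebraic ℚ (b : Om) ∧ π b = y := by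
  have hint : IsIntegral ℚ y := (AlgebraicClosure.isAlgebraic ℚ).isIntegral.isIntegral y
  obtain ⟨b, hb, hπb⟩ := H79.root_lift π (minpoly ℚ y) (minpoly.monic hint) y (by
    rw [eval_map, ← aeval_def, minpoly.aeval])
  refine ⟨b, ⟨minpoly ℚ y, (minpoly.monic hint).ne_zero, ?_⟩, hπb⟩
  have h1 := congrArg (algebraMap BB Om) hb
  rw [map_zero, ← Polynomial.eval₂_at_apply, ← Polynomial.eval_map, Polynomial.map_map,
    Polynomial.map_map, rat_hom] at h1
  rw [Polynomial.aeval_def, ← Polynomial.eval_map]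
  exact h1

theorem ker (π : BB →+* QB) (d : BB) (hd : IsAlgebraic ℚ (d : Om)) (h0 : π d = 0) : d = 0 := by
  by_contra hne
  have hne' : (d : Om) ≠ 0 := fun h => hne (Subtype.ext h)
  have hint : IsIntegral ℚ (d : Om) := hd.isIntegral
  have hc : (minpoly ℚ (d : Om)).coeff 0 ≠ 0 := minpoly.coeff_zero_ne_zero hint hne'
  have h1 : eval d (((minpoly ℚ (d : Om)).map (algebraMap ℚ ℚ[X])).map
      (algebraMap ℚ[X] BB)) = 0 := by
    apply Subtype.val_injective
    change algebraMap BB Om _ = 0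
    rw [← Polynomial.eval₂_at_apply, ← Polynomial.eval_map, Polynomial.map_map,
      Polynomial.map_map, rat_hom]
    change eval (d : Om) _ = 0
    rw [Polynomial.eval_map, ← Polynomial.aeval_def, minpoly.aeval]
  have h2 := congrArg π h1
  rw [map_zero, ← Polynomial.eval₂_at_apply, ← Polynomial.eval_map, Polynomial.map_map,
    Polynomial.map_map, h0, ← Polynomial.coeff_zero_eq_eval_zero, Polynomial.coeff_map] at h2
  exact hc ((map_eq_zero _).1 h2)

theorem inj (π : BB →+* QB) (b b' : BB) (hb : IsAlgebraic ℚ (b : Om))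
    (hb' : IsAlgebraic ℚ (b' : Om)) (h : π b = π b') : b = b' := by
  have h1 : IsAlgebraic ℚ ((b - b' : BB) : Om) := by
    change IsAlgebraic ℚ ((b : Om) - (b' : Om))
    exact hb.sub hb'
  exact sub_eq_zero.1 (ker π _ h1 (by rw [map_sub, h, sub_self]))

theorem alg_smul (γ : GT) (b : BB) (hb : IsAlgebraic ℚ (b : Om)) :
    IsAlgebraic ℚ ((γ • b : BB) : Om) := by
  change IsAlgebraic ℚ (γ (b : Om))
  exact hb.algHom (RingHom.toRatAlgHom (γ : Om →+* Om))

theorem ctp : CtpStmt := by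
  intro π
  refine ⟨surj π, inj π, ?_⟩
  intro γ
  let S : Subring BB := (algebraicClosure ℚ Om).toSubring.comap (algebraMap BB Om)
  have hS : ∀ b : BB, b ∈ S ↔ IsAlgebraic ℚ (b : Om) := fun b => mem_algebraicClosure_iff
  have hbij : Function.Bijective (π.comp S.subtype) := by
    constructor
    · intro b b' h
      exact Subtype.ext (inj π b b' ((hS _).1 b.2) ((hS _).1 b'.2) h)
    · intro y
      obtain ⟨b, hb, hy⟩ := surj π y
      exact ⟨⟨b, (hS b).2 hb⟩, hy⟩
  let e : S ≃+* QB := RingEquiv.ofBijective (π.comp S.subtype) hbij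
  let g : S →+* S := (MulSemiringAction.toRingHom GT BB γ).restrict S S
    (fun b hb => (hS _).2 (alg_smul γ b ((hS b).1 hb)))
  let f : QB →ₐ[ℚ] QB := RingHom.toRatAlgHom (((π.comp S.subtype).comp g).comp
    (e.symm : QB →+* S))
  have hQ : Algebra.IsAlgebraic ℚ QB := AlgebraicClosure.isAlgebraic ℚ
  refine ⟨AlgEquiv.ofBijective f (Algebra.IsAlgebraic.algHom_bijective f), ?_⟩
  intro b hb
  change π (γ • b) = π ((g (e.symm (π b)) : S) : BB)
  have h1 : e.symm (π b) = ⟨b, (hS b).2 hb⟩ := by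
    rw [RingEquiv.symm_apply_eq]
    rfl
  rw [h1]
  rfl

end Pool.Agent.HUK.H94
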